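import Mathlib

/-!
Common definitions and lemmas for the tail ratio problem `MP_966169_pr`.
-/

open MeasureTheory Set Filter Topology

namespace Pool.Agent.H4.TailRatio

/-- The laws of the problem: probability measures on the real line that are carried by
`[0, ∞)`, absolutely continuous with respect to Lebesgue measure, and not compactly
supported, that is `P(X > t) > 0` for every `t`. -/
structure IsLaw (μ : Measure ℝ) : Prop where
  /-- total mass one -/
  prob : IsProbabilityMeasure μ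
  /-- carried by the nonnegative half line -/
  nonneg : μ (Iio 0) = 0
  /-- absolutely continuous with respect to Lebesgue measure -/
  ac : μ ≪ (volume : Measure ℝ)
  /-- `P(X > t) > 0` for every `t` -/
  unbounded : ∀ t : ℝ, 0 < μ (Ioi t)

/-- `R(z) = P(X + Y ≥ 2 z, min(X, Y) ≤ z) / P(X + Y ≥ 2 z, min(X, Y) ≥ z)`, where `(X, Y)` is a
pair of independent random variables with the same law `μ`, so that its joint law is the
product measure. -/
noncomputable def R (μ : Measure ℝ) (z : ℝ) : ℝ :=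
  (μ.prod μ).real {p : ℝ × ℝ | 2 * z ≤ p.1 + p.2 ∧ min p.1 p.2 ≤ z} /
  (μ.prod μ).real {p : ℝ × ℝ | 2 * z ≤ p.1 + p.2 ∧ z ≤ min p.1 p.2}

/-- The median: the smallest `m ≥ 0` with `P(X ≤ m) = 1/2`. -/
noncomputable def med (μ : Measure ℝ) : ℝ := sInf {m : ℝ | 0 ≤ m ∧ μ.real (Iic m) = 1 / 2}

/-- The denominator of `R` is `P(X ≥ z)^2`. -/
lemma den_eq (μ : Measure ℝ) [IsProbabilityMeasure μ] (z : ℝ) :
    (μ.prod μ).real {p : ℝ × ℝ | 2 * z ≤ p.1 + p.2 ∧ z ≤ min p.1 p.2} =
      μ.real (Ici z) * μ.real (Ici z) := by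
  have : {p : ℝ × ℝ | 2 * z ≤ p.1 + p.2 ∧ z ≤ min p.1 p.2} = Ici z ×ˢ Ici z := by
    ext p
    simp only [mem_ofPred_eq, le_min_iff, mem_prod, mem_Ici]
    constructor
    · rintro ⟨_, h⟩; exact h
    · rintro ⟨h1, h2⟩; exact ⟨by linarith, h1, h2⟩
  rw [this, measureReal_def, Measure.prod_prod, ENNReal.toReal_mul]
  rfl

lemma num_ge (μ : Measure ℝ) [IsProbabilityMeasure μ] {a b : ℝ} (hab : a < b) :
    2 * (μ.real (Ico a b) * μ.real (Ici (2 * b - a))) ≤
      (μ.prod μ).real {p : ℝ × ℝ | 2 * b ≤ p.1 + p.2 ∧ min p.1 p.2 ≤ b} := by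
  have hA : (μ.prod μ).real (Ico a b ×ˢ Ici (2 * b - a)) =
      μ.real (Ico a b) * μ.real (Ici (2 * b - a)) := by
    rw [measureReal_def, Measure.prod_prod, ENNReal.toReal_mul]; rfl
  have hB : (μ.prod μ).real (Ici (2 * b - a) ×ˢ Ico a b) =
      μ.real (Ico a b) * μ.real (Ici (2 * b - a)) := by
    rw [measureReal_def, Measure.prod_prod, ENNReal.toReal_mul, mul_comm]; rfl
  have hdisj : Disjoint (Ico a b ×ˢ Ici (2 * b - a)) (Ici (2 * b - a) ×ˢ Ico a b) := by
    rw [Set.disjoint_left]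
    rintro ⟨x, y⟩ h1 h2
    simp only [mem_prod, mem_Ico, mem_Ici] at h1 h2
    linarith [h1.1.2, h2.1]
  have hU : (μ.prod μ).real ((Ico a b ×ˢ Ici (2 * b - a)) ∪ (Ici (2 * b - a) ×ˢ Ico a b)) =
      2 * (μ.real (Ico a b) * μ.real (Ici (2 * b - a))) := by
    rw [measureReal_union hdisj (measurableSet_Ici.prod measurableSet_Ico), hA, hB]
    ring
  rw [← hU]
  apply measureReal_mono
  · rintro ⟨x, y⟩ h
    simp only [mem_union, mem_prod, mem_Ico, mem_Ici] at h
    simp only [mem_ofPred_eq, min_le_iff]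
    rcases h with h | h
    · exact ⟨by linarith [h.1.1, h.2], Or.inl h.1.2.le⟩
    · exact ⟨by linarith [h.2.1, h.1], Or.inr h.2.2.le⟩
  · exact measure_ne_top _ _

lemma tail_pos {μ : Measure ℝ} (h : IsLaw μ) (t : ℝ) : 0 < μ.real (Ici t) := by
  have := h.prob
  rw [measureReal_def]
  apply ENNReal.toReal_pos
  · exact (lt_of_lt_of_le (h.unbounded t) (measure_mono Ioi_subset_Ici_self)).ne'
  · exact measure_ne_top _ _

lemma tail_anti (μ : Measure ℝ) [IsProbabilityMeasure μ] {a b : ℝ} (hab : a ≤ b) :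
    μ.real (Ici b) ≤ μ.real (Ici a) :=
  measureReal_mono (Ici_subset_Ici.2 hab) (measure_ne_top _ _)

lemma ico_eq (μ : Measure ℝ) [IsProbabilityMeasure μ] {a b : ℝ} (hab : a ≤ b) :
    μ.real (Ico a b) = μ.real (Ici a) - μ.real (Ici b) := by
  have h1 : Ici a = Ico a b ∪ Ici b := (Ico_union_Ici_eq_Ici hab).symm
  have h2 : Disjoint (Ico a b) (Ici b) := by
    rw [Set.disjoint_left]; intro x hx hx'
    exact absurd hx.2 (not_lt.2 hx')
  have := measureReal_union (μ := μ) h2 measurableSet_Ici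
  rw [← h1] at this
  linarith

lemma key {μ : Measure ℝ} (h : IsLaw μ) {a b : ℝ} (hab : a < b)
    (h2 : 2 * μ.real (Ici b) ≤ μ.real (Ici a)) (hR : R μ b ≤ 1 / 2) :
    μ.real (Ici (2 * b - a)) ≤ μ.real (Ici b) / 4 := by
  have := h.prob
  have hb := tail_pos h b
  have hden := den_eq μ b
  have hnum := num_ge μ hab
  have hico := ico_eq μ hab.le
  unfold R at hR
  rw [hden, div_le_iff₀ (mul_pos hb hb)] at hR
  have h3 : μ.real (Ici b) ≤ μ.real (Ico a b) := by linarith
  have h4 : 0 ≤ μ.real (Ici (2 * b - a)) := measureReal_nonneg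
  have h5 : 2 * (μ.real (Ici b) * μ.real (Ici (2 * b - a))) ≤
      1 / 2 * (μ.real (Ici b) * μ.real (Ici b)) := by
    refine le_trans ?_ (hnum.trans hR)
    have := mul_le_mul_of_nonneg_right h3 h4
    linarith
  have h6 : μ.real (Ici b) * (μ.real (Ici (2 * b - a))) ≤
      μ.real (Ici b) * (μ.real (Ici b) / 4) := by nlinarith
  exact le_of_mul_le_mul_left h6 hb

lemma law_noAtoms {μ : Measure ℝ} (h : IsLaw μ) (x : ℝ) : μ {x} = 0 :=
  h.ac (by simp)

lemma iic_eq {μ : Measure ℝ} (h : IsLaw μ) (x : ℝ) :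
    μ.real (Iic x) = 1 - μ.real (Ici x) := by
  have := h.prob
  have h1 : μ.real (Iic x) = μ.real (Iio x) := by
    have : Iic x = Iio x ∪ {x} := by rw [Iio_union_right]
    rw [this, measureReal_union _ (measurableSet_singleton x)]
    · rw [measureReal_def (s := {x}), law_noAtoms h x]; simp
    · simp
  have h2 : Iio x = (Ici x)ᶜ := by simp
  rw [h1, h2, probReal_compl_eq_one_sub measurableSet_Ici]

lemma tail_zero {μ : Measure ℝ} (h : IsLaw μ) : μ.real (Ici 0) = 1 := by
  have := h.prob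
  have h2 : Ici (0 : ℝ) = (Iio 0)ᶜ := by simp
  rw [h2, probReal_compl_eq_one_sub measurableSet_Iio, measureReal_def, h.nonneg]
  simp

/-- For every law with a median `m`, there is `z ∈ (0, 3 m]` with `R(z) > 1/2`. -/
lemma exists_large {μ : Measure ℝ} (h : IsLaw μ) {m : ℝ} (hm : 0 < m)
    (hm2 : μ.real (Iic m) = 1 / 2) : ∃ z, 0 < z ∧ z ≤ 3 * m ∧ 1 / 2 < R μ z := by
  have := h.prob
  by_contra hcon
  push Not at hcon
  have claim : ∀ n : ℕ, ∃ a b : ℝ, 0 ≤ a ∧ a < b ∧ b + 2 * (b - a) ≤ 3 * m ∧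
      2 * μ.real (Ici b) ≤ μ.real (Ici a) ∧ μ.real (Ici b) ≤ (1 / 2) ^ n := by
    intro n
    induction n with
    | zero =>
      refine ⟨0, m, le_refl _, hm, by linarith, ?_, ?_⟩
      · rw [tail_zero h]
        have := iic_eq h m
        linarith
      · have := iic_eq h m
        simp only [pow_zero]
        linarith
    | succ n ih =>
      obtain ⟨a, b, ha, hab, hb3, h2, hn⟩ := ih
      have hb0 : 0 < b := lt_of_le_of_lt ha hab
      have hR : R μ b ≤ 1 / 2 := hcon b hb0 (by linarith)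
      have hk := key h hab h2 hR
      have hbp := tail_pos h b
      rcases le_or_gt (μ.real (Ici (b + (b - a) / 2))) (μ.real (Ici b) / 2) with hc | hc
      · refine ⟨b, b + (b - a) / 2, hb0.le, by linarith, by linarith, by linarith, ?_⟩
        rw [pow_succ]
        linarith
      · refine ⟨b + (b - a) / 2, 2 * b - a, by linarith, by linarith, by linarith, by linarith, ?_⟩
        rw [pow_succ]
        linarith
  have h3 : ∀ n : ℕ, μ.real (Ici (3 * m)) ≤ (1 / 2) ^ n := by
    intro n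
    obtain ⟨a, b, ha, hab, hb3, h2, hn⟩ := claim n
    exact (tail_anti μ (by linarith)).trans hn
  have h4 : μ.real (Ici (3 * m)) ≤ 0 := by
    have : Tendsto (fun n : ℕ => ((1 : ℝ) / 2) ^ n) atTop (𝓝 0) :=
      tendsto_pow_atTop_nhds_zero_of_lt_one (by norm_num) (by norm_num)
    exact ge_of_tendsto' this h3
  exact absurd (tail_pos h (3 * m)) (not_lt.2 h4)

lemma cdf_continuous {μ : Measure ℝ} (h : IsLaw μ) : Continuous fun x => μ.real (Iic x) := by
  have := h.prob
  rw [continuous_iff_continuousAt]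
  intro x
  have hmono : Monotone fun x => μ.real (Iic x) := fun a b hab =>
    measureReal_mono (Iic_subset_Iic.2 hab) (measure_ne_top _ _)
  rw [hmono.continuousAt_iff_leftLim_eq_rightLim]
  have hr : Function.rightLim (fun x => μ.real (Iic x)) x = μ.real (Iic x) := by
    have := (ProbabilityTheory.cdf μ).rightLim_eq x
    have h2 : (ProbabilityTheory.cdf μ : ℝ → ℝ) = fun x => μ.real (Iic x) := by
      ext y; exact ProbabilityTheory.cdf_eq_real μ y
    rw [h2] at this
    exact this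
  have hl : Function.leftLim (fun x => μ.real (Iic x)) x = μ.real (Iic x) := by
    have h3 := (ProbabilityTheory.cdf μ).measure_singleton x
    rw [ProbabilityTheory.measure_cdf, law_noAtoms h] at h3
    have h4 := h3.symm
    rw [ENNReal.ofReal_eq_zero] at h4
    have h2 : (ProbabilityTheory.cdf μ : ℝ → ℝ) = fun x => μ.real (Iic x) := by
      ext y; exact ProbabilityTheory.cdf_eq_real μ y
    rw [h2] at h4
    have h5 := hmono.leftLim_le (le_refl x)
    simp only at h4 h5
    linarith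
  rw [hl, hr]

lemma med_mem {μ : Measure ℝ} (h : IsLaw μ) :
    med μ ∈ {m : ℝ | 0 ≤ m ∧ μ.real (Iic m) = 1 / 2} := by
  have := h.prob
  have hc := cdf_continuous h
  have h0 : μ.real (Iic 0) = 0 := by
    rw [iic_eq h, tail_zero h]; simp
  have hlim : Tendsto (fun x => μ.real (Iic x)) atTop (𝓝 1) := by
    have h2 : (ProbabilityTheory.cdf μ : ℝ → ℝ) = fun x => μ.real (Iic x) := by
      ext y; exact ProbabilityTheory.cdf_eq_real μ y
    rw [← h2]
    exact ProbabilityTheory.tendsto_cdf_atTop μ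
  apply IsClosed.csInf_mem
  · exact isClosed_Ici.inter (isClosed_eq hc continuous_const)
  · have h3 : ∀ᶠ x in atTop, 1 / 2 < μ.real (Iic x) :=
      hlim.eventually (lt_mem_nhds (by norm_num))
    obtain ⟨b, hb0, hb⟩ := ((eventually_ge_atTop (0 : ℝ)).and h3).exists
    obtain ⟨c, hc1, hc2⟩ := intermediate_value_Icc hb0 hc.continuousOn
      (show (1 / 2 : ℝ) ∈ Icc (μ.real (Iic 0)) (μ.real (Iic b)) from
        ⟨by rw [h0]; norm_num, hb.le⟩)
    exact ⟨c, hc1.1, hc2⟩
  · exact ⟨0, fun x hx => hx.1⟩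

lemma med_pos {μ : Measure ℝ} (h : IsLaw μ) : 0 < med μ := by
  have := h.prob
  obtain ⟨h1, h2⟩ := med_mem h
  rcases h1.lt_or_eq with h3 | h3
  · exact h3
  · exfalso
    rw [← h3, iic_eq h, tail_zero h] at h2
    norm_num at h2

/-- There is a universal constant for the median version: `c = 1/6`. -/
lemma exists_const_med {μ : Measure ℝ} (h : IsLaw μ) :
    ∃ z, 0 < z ∧ 1 / 6 * z / med μ ≤ R μ z := by
  have hm := med_pos h
  obtain ⟨z, hz, hz3, hR⟩ := exists_large h hm (med_mem h).2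
  refine ⟨z, hz, ?_⟩
  have : 1 / 6 * z / med μ ≤ 1 / 2 := by
    rw [div_le_iff₀ hm]
    linarith
  linarith

lemma med_le_two_mean {μ : Measure ℝ} (h : IsLaw μ) (hint : Integrable (fun x : ℝ => x) μ) :
    med μ ≤ 2 * ∫ x, x ∂μ := by
  have := h.prob
  obtain ⟨h1, h2⟩ := med_mem h
  have hnn : 0 ≤ᵐ[μ] fun x : ℝ => x := by
    have : ∀ᵐ x ∂μ, x ∉ Iio (0 : ℝ) := measure_eq_zero_iff_ae_notMem.1 h.nonneg
    filter_upwards [this] with x hx
    simpa using hx
  have h3 := mul_meas_ge_le_integral_of_nonneg hnn hint (med μ)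
  have h4 : μ.real {x | med μ ≤ x} = 1 / 2 := by
    have := iic_eq h (med μ)
    have h5 : {x | med μ ≤ x} = Ici (med μ) := rfl
    rw [h5]; linarith
  rw [h4] at h3
  linarith

/-- There is a universal constant for the mean version: `c = 1/12`. -/
lemma exists_const_mean {μ : Measure ℝ} (h : IsLaw μ) (hint : Integrable (fun x : ℝ => x) μ) :
    ∃ z, 0 < z ∧ 1 / 12 * z / (∫ x, x ∂μ) ≤ R μ z := by
  obtain ⟨z, hz, hR⟩ := exists_const_med h
  refine ⟨z, hz, le_trans ?_ hR⟩
  have hm := med_pos h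
  have h2 := med_le_two_mean h hint
  have hE : 0 < ∫ x, x ∂μ := by linarith
  rw [div_le_div_iff₀ hE hm]
  nlinarith

end Pool.Agent.H4.TailRatio
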