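import Pool.Agent.H4.TailRatio

/-!
The counterexample law for `MP_966169_pr`: `P(X > t) = exp(-(t + t^2/10))`.
-/

open MeasureTheory Set Filter Topology

namespace Pool.Agent.H4.TailRatio

/-- the tail function of the example law -/
noncomputable def tail (x : ℝ) : ℝ := Real.exp (-(x + x ^ 2 / 10))

/-- the density of the example law -/
noncomputable def dens (x : ℝ) : ℝ := (1 + x / 5) * Real.exp (-(x + x ^ 2 / 10))

/-- the example law, with `P(X > t) = exp(-(t + t^2/10))` for `t ≥ 0` -/
noncomputable def law : Measure ℝ :=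
  (volume.restrict (Ioi (0 : ℝ))).withDensity fun x => ENNReal.ofReal (dens x)

lemma dens_nonneg {x : ℝ} (hx : 0 ≤ x) : 0 ≤ dens x := by
  unfold dens; positivity

lemma dens_continuous : Continuous dens := by
  unfold dens; fun_prop

lemma hasDerivAt_tail (x : ℝ) : HasDerivAt (fun x => - tail x) (dens x) x := by
  unfold tail dens
  have h1 : HasDerivAt (fun x : ℝ => -(x + x ^ 2 / 10)) (-(1 + x / 5)) x := by
    have h2 := ((hasDerivAt_id' x).add (((hasDerivAt_id' x).pow 2).div_const 10)).neg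
    refine h2.congr_deriv ?_
    norm_num
    ring
  have h3 := h1.exp.neg
  refine h3.congr_deriv ?_
  ring

lemma tendsto_tail : Tendsto (fun x => - tail x) atTop (𝓝 0) := by
  have h : Tendsto (fun x : ℝ => Real.exp (-(x + x ^ 2 / 10))) atTop (𝓝 0) := by
    apply Real.tendsto_exp_atBot.comp
    apply tendsto_neg_atTop_atBot.comp
    apply tendsto_atTop_mono (f := fun x => x)
    · intro x; nlinarith [sq_nonneg x]
    · exact tendsto_id
  have := h.neg
  simpa [tail] using this

lemma dens_integrableOn {t : ℝ} (ht : 0 ≤ t) : IntegrableOn dens (Ioi t) :=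
  integrableOn_Ioi_deriv_of_nonneg' (fun x _ => hasDerivAt_tail x)
    (fun x hx => dens_nonneg (ht.trans (le_of_lt hx))) tendsto_tail

lemma dens_integral {t : ℝ} (ht : 0 ≤ t) : ∫ x in Ioi t, dens x = tail t := by
  have := integral_Ioi_of_hasDerivAt_of_tendsto (a := t) (f := fun x => - tail x)
    (hasDerivAt_tail t).continuousAt.continuousWithinAt
    (fun x _ => hasDerivAt_tail x) (dens_integrableOn ht) tendsto_tail
  rw [this]; ring

lemma law_Ioi {t : ℝ} (ht : 0 ≤ t) : law (Ioi t) = ENNReal.ofReal (tail t) := by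
  unfold law
  rw [withDensity_apply _ measurableSet_Ioi, Measure.restrict_restrict measurableSet_Ioi]
  have h1 : Ioi t ∩ Ioi 0 = Ioi t := by
    rw [Ioi_inter_Ioi, max_eq_left ht]
  rw [h1, ← ofReal_integral_eq_lintegral_ofReal (dens_integrableOn ht), dens_integral ht]
  rw [EventuallyLE, ae_restrict_iff' measurableSet_Ioi]
  exact ae_of_all _ fun x hx => dens_nonneg (ht.trans (le_of_lt hx))

lemma law_ac : law ≪ (volume : Measure ℝ) :=
  (withDensity_absolutelyContinuous _ _).trans Measure.restrict_le_self.absolutelyContinuous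

lemma law_neg : law (Iio 0) = 0 := by
  unfold law
  rw [withDensity_apply _ measurableSet_Iio, Measure.restrict_restrict measurableSet_Iio]
  have h1 : Iio (0 : ℝ) ∩ Ioi 0 = ∅ := by
    ext x; simp; intro h; exact le_of_lt h
  rw [h1]; simp

lemma law_Ici {t : ℝ} (ht : 0 ≤ t) : law (Ici t) = ENNReal.ofReal (tail t) := by
  have h1 : Ici t = {t} ∪ Ioi t := by simp
  have h2 : law {t} = 0 := law_ac (by simp)
  apply le_antisymm
  · calc law (Ici t) ≤ law {t} + law (Ioi t) := by rw [h1]; exact measure_union_le _ _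
      _ = ENNReal.ofReal (tail t) := by rw [h2, law_Ioi ht, zero_add]
  · rw [← law_Ioi ht]; exact measure_mono Ioi_subset_Ici_self

lemma law_univ : law univ = 1 := by
  have h1 : (univ : Set ℝ) = Iio 0 ∪ Ici 0 := by simp
  apply le_antisymm
  · calc law univ ≤ law (Iio 0) + law (Ici 0) := by
          rw [h1]; exact measure_union_le _ _
      _ = 1 := by rw [law_neg, law_Ici le_rfl]; simp [tail]
  · calc (1 : ENNReal) = law (Ici 0) := by rw [law_Ici le_rfl]; simp [tail]
      _ ≤ law univ := measure_mono (subset_univ _)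

instance : IsProbabilityMeasure law := ⟨law_univ⟩

lemma law_isLaw : IsLaw law where
  prob := inferInstance
  nonneg := law_neg
  ac := law_ac
  unbounded := by
    intro t
    have h1 : law (Ioi (max t 0)) = ENNReal.ofReal (tail (max t 0)) := law_Ioi (le_max_right _ _)
    have h2 : 0 < law (Ioi (max t 0)) := by
      rw [h1, ENNReal.ofReal_pos]; unfold tail; positivity
    exact lt_of_lt_of_le h2 (measure_mono (Ioi_subset_Ioi (le_max_left _ _)))

/-- the function dominating `R` for the example law -/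
noncomputable def H (z : ℝ) : ℝ := 2 * ∫ x in (0 : ℝ)..z, (1 + x / 5) * Real.exp (-((x - z) ^ 2 / 5))

/-- the half of the numerator -/
lemma half_num {z : ℝ} (hz : 0 < z) :
    (law.prod law) {p : ℝ × ℝ | p.1 ≤ z ∧ 2 * z - p.1 ≤ p.2} =
      ENNReal.ofReal (∫ x in (0 : ℝ)..z, dens x * tail (2 * z - x)) := by
  have hmeas : MeasurableSet {p : ℝ × ℝ | p.1 ≤ z ∧ 2 * z - p.1 ≤ p.2} := by
    apply MeasurableSet.inter
    · exact measurableSet_le measurable_fst measurable_const
    · exact measurableSet_le (measurable_const.sub measurable_fst) measurable_snd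
  rw [Measure.prod_apply hmeas]
  have h1 : ∀ x : ℝ, Prod.mk x ⁻¹' {p : ℝ × ℝ | p.1 ≤ z ∧ 2 * z - p.1 ≤ p.2} =
      if x ≤ z then Ici (2 * z - x) else ∅ := by
    intro x
    ext y
    by_cases hx : x ≤ z <;> simp [hx]
  simp_rw [h1]
  have h2 : ∀ x : ℝ, law (if x ≤ z then Ici (2 * z - x) else ∅) =
      (Iic z).indicator (fun x => ENNReal.ofReal (tail (2 * z - x))) x := by
    intro x
    by_cases hx : x ≤ z
    · rw [if_pos hx, indicator_of_mem (show x ∈ Iic z from hx), law_Ici (by linarith)]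
    · rw [if_neg hx, indicator_of_notMem (show x ∉ Iic z from hx), measure_empty]
  simp_rw [h2]
  rw [lintegral_indicator measurableSet_Iic]
  have htail : Continuous fun x => tail (2 * z - x) := by unfold tail; fun_prop
  have hm1 : Measurable fun x => ENNReal.ofReal (tail (2 * z - x)) :=
    ENNReal.measurable_ofReal.comp htail.measurable
  have hm2 : Measurable fun x => ENNReal.ofReal (dens x) :=
    ENNReal.measurable_ofReal.comp dens_continuous.measurable
  unfold law
  rw [restrict_withDensity measurableSet_Iic, lintegral_withDensity_eq_lintegral_mul _ hm2 hm1,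
    Measure.restrict_restrict measurableSet_Iic]
  have h3 : Iic z ∩ Ioi 0 = Ioc 0 z := by ext x; simp [and_comm]
  rw [h3, intervalIntegral.integral_of_le hz.le]
  have hcont : Continuous fun x => dens x * tail (2 * z - x) := dens_continuous.mul htail
  rw [ofReal_integral_eq_lintegral_ofReal]
  · apply setLIntegral_congr_fun measurableSet_Ioc
    intro x hx
    simp only [Pi.mul_apply]
    rw [ENNReal.ofReal_mul (dens_nonneg hx.1.le)]
  · exact (hcont.intervalIntegrable 0 z).1
  · rw [EventuallyLE, ae_restrict_iff' measurableSet_Ioc]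
    refine ae_of_all _ fun x hx => ?_
    have := dens_nonneg hx.1.le
    have h5 : 0 < tail (2 * z - x) := by unfold tail; positivity
    simp only [Pi.zero_apply]
    positivity

lemma prod_eq (z x : ℝ) : dens x * tail (2 * z - x) =
    (tail z * tail z) * ((1 + x / 5) * Real.exp (-((x - z) ^ 2 / 5))) := by
  unfold dens tail
  rw [← Real.exp_add, mul_assoc, ← Real.exp_add, mul_left_comm, ← Real.exp_add]
  congr 2
  ring

lemma R_le_H {z : ℝ} (hz : 0 < z) : R law z ≤ H z := by
  unfold R
  rw [den_eq]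
  have hI : law.real (Ici z) = tail z := by
    rw [measureReal_def, law_Ici hz.le, ENNReal.toReal_ofReal]
    unfold tail; positivity
  have ht : 0 < tail z := by unfold tail; positivity
  rw [hI, div_le_iff₀ (mul_pos ht ht)]
  have hsub : {p : ℝ × ℝ | 2 * z ≤ p.1 + p.2 ∧ min p.1 p.2 ≤ z} ⊆
      {p : ℝ × ℝ | p.1 ≤ z ∧ 2 * z - p.1 ≤ p.2} ∪
      Prod.swap ⁻¹' {p : ℝ × ℝ | p.1 ≤ z ∧ 2 * z - p.1 ≤ p.2} := by
    rintro ⟨x, y⟩ ⟨h1, h2⟩
    simp only [min_le_iff] at h1 h2
    rcases h2 with h2 | h2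
    · left; exact ⟨h2, by simp only; linarith⟩
    · right; exact ⟨h2, by simp only [Prod.swap]; linarith⟩
  have hmeas : MeasurableSet {p : ℝ × ℝ | p.1 ≤ z ∧ 2 * z - p.1 ≤ p.2} := by
    apply MeasurableSet.inter
    · exact measurableSet_le measurable_fst measurable_const
    · exact measurableSet_le (measurable_const.sub measurable_fst) measurable_snd
  have hswap : (law.prod law) (Prod.swap ⁻¹' {p : ℝ × ℝ | p.1 ≤ z ∧ 2 * z - p.1 ≤ p.2}) =
      (law.prod law) {p : ℝ × ℝ | p.1 ≤ z ∧ 2 * z - p.1 ≤ p.2} := by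
    rw [← Measure.map_apply measurable_swap hmeas, Measure.prod_swap]
  have h0 : 0 ≤ ∫ x in (0 : ℝ)..z, dens x * tail (2 * z - x) := by
    apply intervalIntegral.integral_nonneg hz.le
    intro x hx
    have := dens_nonneg hx.1
    have h5 : 0 < tail (2 * z - x) := by unfold tail; positivity
    positivity
  have hle : (law.prod law) {p : ℝ × ℝ | 2 * z ≤ p.1 + p.2 ∧ min p.1 p.2 ≤ z} ≤
      ENNReal.ofReal (2 * ∫ x in (0 : ℝ)..z, dens x * tail (2 * z - x)) := by
    refine (measure_mono hsub).trans ((measure_union_le _ _).trans ?_)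
    rw [hswap, half_num hz, ← ENNReal.ofReal_add h0 h0, ← two_mul]
  have hle2 : (law.prod law).real {p : ℝ × ℝ | 2 * z ≤ p.1 + p.2 ∧ min p.1 p.2 ≤ z} ≤
      2 * ∫ x in (0 : ℝ)..z, dens x * tail (2 * z - x) := by
    rw [measureReal_def]
    exact ENNReal.toReal_le_of_le_ofReal (by positivity) hle
  refine hle2.trans (le_of_eq ?_)
  simp_rw [prod_eq z]
  rw [intervalIntegral.integral_const_mul]
  unfold H
  ring

/-- the incomplete Gaussian integral -/
noncomputable def I (z : ℝ) : ℝ := ∫ u in (0 : ℝ)..z, Real.exp (-(u ^ 2 / 5))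

lemma gauss_cont : Continuous fun u : ℝ => Real.exp (-(u ^ 2 / 5)) := by fun_prop

lemma H_eq (z : ℝ) : H z = 2 * (1 + z / 5) * I z - 1 + Real.exp (-(z ^ 2 / 5)) := by
  have h1 : ∫ x in (0 : ℝ)..z, (1 + x / 5) * Real.exp (-((x - z) ^ 2 / 5)) =
      ∫ u in (0 : ℝ)..z, (1 + (z - u) / 5) * Real.exp (-(u ^ 2 / 5)) := by
    have := intervalIntegral.integral_comp_sub_left (a := 0) (b := z)
      (fun u => (1 + (z - u) / 5) * Real.exp (-(u ^ 2 / 5))) z
    rw [sub_self, sub_zero] at this
    rw [← this]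
    congr 1
    ext x
    congr 2
    · ring
    · ring
  have h2 : ∫ u in (0 : ℝ)..z, (u / 5) * Real.exp (-(u ^ 2 / 5)) =
      (1 - Real.exp (-(z ^ 2 / 5))) / 2 := by
    have h3 : ∀ u ∈ uIcc 0 z, HasDerivAt (fun u : ℝ => - Real.exp (-(u ^ 2 / 5)) / 2)
        ((u / 5) * Real.exp (-(u ^ 2 / 5))) u := by
      intro u _
      have h4 := (((((hasDerivAt_id' u).pow 2).div_const 5).neg).exp.neg).div_const 2
      refine h4.congr_deriv ?_
      norm_num
      ring
    rw [intervalIntegral.integral_eq_sub_of_hasDerivAt h3]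
    · norm_num
      ring
    · apply Continuous.intervalIntegrable
      fun_prop
  unfold H
  rw [h1]
  have h5 : ∫ u in (0 : ℝ)..z, (1 + (z - u) / 5) * Real.exp (-(u ^ 2 / 5)) =
      (∫ u in (0 : ℝ)..z, (1 + z / 5) * Real.exp (-(u ^ 2 / 5))) -
      ∫ u in (0 : ℝ)..z, (u / 5) * Real.exp (-(u ^ 2 / 5)) := by
    rw [← intervalIntegral.integral_sub]
    · congr 1
      ext u
      ring
    · apply Continuous.intervalIntegrable; fun_prop
    · apply Continuous.intervalIntegrable; fun_prop
  rw [h5, h2, intervalIntegral.integral_const_mul]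
  unfold I
  ring

lemma hasDerivAt_I (z : ℝ) : HasDerivAt I (Real.exp (-(z ^ 2 / 5))) z :=
  intervalIntegral.integral_hasDerivAt_right (gauss_cont.intervalIntegrable _ _)
    gauss_cont.aestronglyMeasurable.stronglyMeasurableAtFilter gauss_cont.continuousAt

/-- the derivative of `H` -/
noncomputable def k (z : ℝ) : ℝ := 2 / 5 * I z + 2 * Real.exp (-(z ^ 2 / 5))

lemma hasDerivAt_gauss (z : ℝ) : HasDerivAt (fun z : ℝ => Real.exp (-(z ^ 2 / 5)))
    (-(2 * z / 5) * Real.exp (-(z ^ 2 / 5))) z := by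
  have h4 := ((((hasDerivAt_id' z).pow 2).div_const 5).neg).exp
  refine h4.congr_deriv ?_
  norm_num
  ring

lemma hasDerivAt_H (z : ℝ) : HasDerivAt H (k z) z := by
  have h1 : H = fun z => 2 * (1 + z / 5) * I z - 1 + Real.exp (-(z ^ 2 / 5)) := by
    ext z; exact H_eq z
  rw [h1]
  have h2 : HasDerivAt (fun z : ℝ => 2 * (1 + z / 5)) (2 / 5) z := by
    have := (((hasDerivAt_id' z).div_const 5).const_add 1).const_mul 2
    refine this.congr_deriv ?_
    norm_num
  have h3 := ((h2.mul (hasDerivAt_I z)).sub_const 1).add (hasDerivAt_gauss z)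
  refine h3.congr_deriv ?_
  unfold k
  ring

lemma hasDerivAt_k (z : ℝ) : HasDerivAt k (2 / 5 * (1 - 2 * z) * Real.exp (-(z ^ 2 / 5))) z := by
  have h1 := ((hasDerivAt_I z).const_mul (2 / 5)).add ((hasDerivAt_gauss z).const_mul 2)
  refine h1.congr_deriv ?_
  ring

lemma I_half : I (1 / 2) ≤ 1 / 2 := by
  unfold I
  have h1 : ∫ u in (0 : ℝ)..(1 / 2), Real.exp (-(u ^ 2 / 5)) ≤ ∫ u in (0 : ℝ)..(1 / 2), (1 : ℝ) := by
    apply intervalIntegral.integral_mono_on (by norm_num)
    · exact gauss_cont.intervalIntegrable _ _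
    · exact continuous_const.intervalIntegrable _ _
    · intro x _
      rw [Real.exp_le_one_iff]
      have := sq_nonneg x
      linarith
  simpa using h1

lemma k_half : k (1 / 2) ≤ 2.11 := by
  unfold k
  have h1 := I_half
  have h2 : Real.exp (-((1 / 2 : ℝ) ^ 2 / 5)) ≤ 0.9515 := by
    rw [Real.exp_neg]
    have h3 := Real.quadratic_le_exp_of_nonneg (show (0 : ℝ) ≤ (1 / 2) ^ 2 / 5 by norm_num)
    have h4 : (1.05125 : ℝ) ≤ Real.exp ((1 / 2) ^ 2 / 5) := by
      refine le_trans ?_ h3
      norm_num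
    calc (Real.exp ((1 / 2 : ℝ) ^ 2 / 5))⁻¹ ≤ (1.05125 : ℝ)⁻¹ := by
          apply inv_anti₀ (by norm_num) h4
      _ ≤ 0.9515 := by norm_num
  linarith

lemma k_le (z : ℝ) (hz : 0 ≤ z) : k z ≤ 2.11 := by
  refine le_trans ?_ k_half
  have hk : Differentiable ℝ k := fun z => (hasDerivAt_k z).differentiableAt
  rcases le_total z (1 / 2) with h | h
  · have hm : MonotoneOn k (Icc 0 (1 / 2)) := by
      apply monotoneOn_of_deriv_nonneg (convex_Icc _ _) hk.continuous.continuousOn
        hk.differentiableOn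
      intro x hx
      rw [interior_Icc] at hx
      rw [(hasDerivAt_k x).deriv]
      have h1 : 0 ≤ 1 - 2 * x := by linarith [hx.2]
      positivity
    exact hm ⟨hz, h⟩ ⟨by norm_num, le_rfl⟩ h
  · have hm : AntitoneOn k (Ici (1 / 2)) := by
      apply antitoneOn_of_deriv_nonpos (convex_Ici _) hk.continuous.continuousOn
        hk.differentiableOn
      intro x hx
      rw [interior_Ici] at hx
      rw [(hasDerivAt_k x).deriv]
      have h1 : 0 ≤ 2 * x - 1 := by linarith [mem_Ioi.1 hx]
      have h2 : 0 ≤ 2 / 5 * (2 * x - 1) * Real.exp (-(x ^ 2 / 5)) := by positivity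
      nlinarith
    exact hm (mem_Ici.2 le_rfl) (mem_Ici.2 h) h

lemma H_le {z : ℝ} (hz : 0 ≤ z) : H z ≤ 2.11 * z := by
  have h0 : H 0 = 0 := by simp [H]
  have hH : Differentiable ℝ H := fun z => (hasDerivAt_H z).differentiableAt
  have := Convex.image_sub_le_mul_sub_of_deriv_le (convex_Ici (0 : ℝ)) (f := H)
    hH.continuous.continuousOn hH.differentiableOn (C := 2.11)
    (fun x hx => by
      rw [interior_Ici] at hx
      rw [(hasDerivAt_H x).deriv]
      exact k_le x (le_of_lt hx)) 0 (mem_Ici.2 le_rfl) z (mem_Ici.2 hz) hz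
  rw [h0] at this
  linarith

lemma R_le {z : ℝ} (hz : 0 < z) : R law z ≤ 2.11 * z := (R_le_H hz).trans (H_le hz.le)

lemma law_real_Ici {z : ℝ} (hz : 0 ≤ z) : law.real (Ici z) = tail z := by
  rw [measureReal_def, law_Ici hz, ENNReal.toReal_ofReal]
  unfold tail; positivity

lemma med_law_gt : 0.55 < med law := by
  obtain ⟨h1, h2⟩ := med_mem law_isLaw
  rw [iic_eq law_isLaw, law_real_Ici h1] at h2
  have h3 : tail (med law) = 1 / 2 := by linarith
  unfold tail at h3
  have h4 : med law + med law ^ 2 / 10 = Real.log 2 := by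
    have := congrArg Real.log h3
    rw [Real.log_exp, one_div, Real.log_inv] at this
    linarith
  by_contra hcon
  push Not at hcon
  have := Real.log_two_gt_d9
  nlinarith

lemma med_law_eq : med law + med law ^ 2 / 10 = Real.log 2 := by
  obtain ⟨h1, h2⟩ := med_mem law_isLaw
  rw [iic_eq law_isLaw, law_real_Ici h1] at h2
  have h3 : tail (med law) = 1 / 2 := by linarith
  unfold tail at h3
  have := congrArg Real.log h3
  rw [Real.log_exp, one_div, Real.log_inv] at this
  linarith

/-- the median inequality fails for the example law -/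
lemma median_fails {z : ℝ} (hz : 0 < z) : R law z < 2 * Real.log 2 * z / med law := by
  have hm := med_law_gt
  have hm0 : 0 < med law := by linarith
  rw [lt_div_iff₀ hm0]
  have h1 := R_le hz
  have h2 := med_law_eq
  have h3 : R law z * med law ≤ 2.11 * z * med law := mul_le_mul_of_nonneg_right h1 hm0.le
  have h4 : 2.11 * med law < 2 * Real.log 2 := by
    rw [← h2]
    nlinarith
  nlinarith

lemma tendsto_poly_exp (c0 c1 c2 c3 c4 : ℝ) :
    Tendsto (fun x : ℝ => -((c0 + c1 * x + c2 * x ^ 2 + c3 * x ^ 3 + c4 * x ^ 4) * Real.exp (-x)))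
      atTop (𝓝 0) := by
  have h := fun n : ℕ => Real.tendsto_pow_mul_exp_neg_atTop_nhds_zero n
  have h0 := (h 0).const_mul c0
  have h1 := (h 1).const_mul c1
  have h2 := (h 2).const_mul c2
  have h3 := (h 3).const_mul c3
  have h4 := (h 4).const_mul c4
  have := ((((h0.add h1).add h2).add h3).add h4).neg
  simp only [mul_zero, add_zero, neg_zero] at this
  refine this.congr ?_
  intro x
  ring

lemma integrable_id_law : Integrable (fun x : ℝ => x) law := by
  unfold law
  have hm2 : Measurable fun x => ENNReal.ofReal (dens x) :=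
    ENNReal.measurable_ofReal.comp dens_continuous.measurable
  rw [integrable_withDensity_iff_integrable_smul' hm2 (ae_of_all _ fun x => ENNReal.ofReal_lt_top)]
  have hdom : IntegrableOn (fun x : ℝ => (x + x ^ 2 / 5) * Real.exp (-x)) (Ioi 0) := by
    apply integrableOn_Ioi_deriv_of_nonneg'
      (g := fun x => -((7 / 5 + 7 / 5 * x + 1 / 5 * x ^ 2 + 0 * x ^ 3 + 0 * x ^ 4) * Real.exp (-x)))
      (l := 0)
    · intro x _
      have h1 := ((((hasDerivAt_id' x).const_mul (7 / 5)).const_add (7 / 5)).add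
        (((hasDerivAt_id' x).pow 2).const_mul (1 / 5)))
      have h2 := (h1.mul ((hasDerivAt_neg x).exp)).neg
      have h3 : (fun x : ℝ => -((7 / 5 + 7 / 5 * x + 1 / 5 * x ^ 2 + 0 * x ^ 3 + 0 * x ^ 4) *
          Real.exp (-x))) = fun x : ℝ => -((7 / 5 + 7 / 5 * x + 1 / 5 * x ^ 2) * Real.exp (-x)) := by
        ext x; ring
      rw [h3]
      refine h2.congr_deriv ?_
      norm_num
      ring
    · intro x hx
      have : 0 < x := hx
      positivity
    · exact tendsto_poly_exp _ _ _ _ _
  refine Integrable.mono' hdom ?_ ?_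
  · apply Measurable.aestronglyMeasurable
    exact (ENNReal.measurable_toReal.comp hm2).mul measurable_id
  · rw [ae_restrict_iff' measurableSet_Ioi]
    refine ae_of_all _ fun x hx => ?_
    have hx0 : 0 < x := hx
    have h1 := dens_nonneg hx0.le
    rw [ENNReal.toReal_ofReal h1, smul_eq_mul, Real.norm_eq_abs, abs_of_nonneg (by positivity)]
    unfold dens
    have h2 : Real.exp (-(x + x ^ 2 / 10)) ≤ Real.exp (-x) := by
      apply Real.exp_le_exp.2
      have := sq_nonneg x
      linarith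
    calc (1 + x / 5) * Real.exp (-(x + x ^ 2 / 10)) * x
        = (x + x ^ 2 / 5) * Real.exp (-(x + x ^ 2 / 10)) := by ring
      _ ≤ (x + x ^ 2 / 5) * Real.exp (-x) := by gcongr

lemma mean_eq : ∫ x, x ∂law = ∫ t in Ioi (0 : ℝ), tail t := by
  have hnn : 0 ≤ᵐ[law] fun x : ℝ => x := by
    have : ∀ᵐ x ∂law, x ∉ Iio (0 : ℝ) := measure_eq_zero_iff_ae_notMem.1 law_neg
    filter_upwards [this] with x hx
    simpa using hx
  rw [Integrable.integral_eq_integral_meas_lt integrable_id_law hnn]
  apply setIntegral_congr_fun measurableSet_Ioi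
  intro t ht
  have h1 : {a : ℝ | t < a} = Ioi t := rfl
  simp only [h1]
  rw [measureReal_def, law_Ioi (le_of_lt ht), ENNReal.toReal_ofReal]
  unfold tail; positivity

lemma poly_integrable : IntegrableOn
    (fun x : ℝ => (1 - x ^ 2 / 10 + x ^ 4 / 200) * Real.exp (-x)) (Ioi 0) ∧
    ∫ x in Ioi (0 : ℝ), (1 - x ^ 2 / 10 + x ^ 4 / 200) * Real.exp (-x) = 0.92 := by
  have hder : ∀ x : ℝ, HasDerivAt (fun x : ℝ =>
      -((0.92 + (-0.08) * x + (-0.04) * x ^ 2 + 0.02 * x ^ 3 + 0.005 * x ^ 4) * Real.exp (-x)))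
      ((1 - x ^ 2 / 10 + x ^ 4 / 200) * Real.exp (-x)) x := by
    intro x
    have h1 := (((((hasDerivAt_id' x).const_mul (-0.08)).const_add 0.92).add
        (((hasDerivAt_id' x).pow 2).const_mul (-0.04))).add
        (((hasDerivAt_id' x).pow 3).const_mul 0.02)).add
        (((hasDerivAt_id' x).pow 4).const_mul 0.005)
    have h2 := (h1.mul ((hasDerivAt_neg x).exp)).neg
    refine h2.congr_deriv ?_
    norm_num
    ring
  have hint : IntegrableOn
    (fun x : ℝ => (1 - x ^ 2 / 10 + x ^ 4 / 200) * Real.exp (-x)) (Ioi 0) := by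
    apply integrableOn_Ioi_deriv_of_nonneg' (fun x _ => hder x) _ (tendsto_poly_exp _ _ _ _ _)
    intro x _
    have : 0 ≤ 1 - x ^ 2 / 10 + x ^ 4 / 200 := by nlinarith [sq_nonneg (x ^ 2 - 10)]
    positivity
  refine ⟨hint, ?_⟩
  have := integral_Ioi_of_hasDerivAt_of_tendsto (a := 0)
    (hder 0).continuousAt.continuousWithinAt (fun x _ => hder x) hint
    (tendsto_poly_exp _ _ _ _ _)
  rw [this]
  norm_num

lemma exp_neg_le {s : ℝ} (hs : 0 ≤ s) : Real.exp (-s) ≤ 1 - s + s ^ 2 / 2 := by
  have h1 := Real.quadratic_le_exp_of_nonneg hs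
  have h2 : 0 < 1 + s + s ^ 2 / 2 := by positivity
  rw [Real.exp_neg]
  calc (Real.exp s)⁻¹ ≤ (1 + s + s ^ 2 / 2)⁻¹ := inv_anti₀ h2 h1
    _ ≤ 1 - s + s ^ 2 / 2 := by
      rw [inv_le_iff_one_le_mul₀ h2]
      nlinarith [sq_nonneg (s ^ 2)]

lemma tail_le (x : ℝ) : tail x ≤ (1 - x ^ 2 / 10 + x ^ 4 / 200) * Real.exp (-x) := by
  have h1 := exp_neg_le (show 0 ≤ x ^ 2 / 10 by positivity)
  have h2 : tail x = Real.exp (-(x ^ 2 / 10)) * Real.exp (-x) := by
    unfold tail
    rw [← Real.exp_add]
    congr 1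
    ring
  rw [h2]
  apply mul_le_mul_of_nonneg_right _ (Real.exp_pos _).le
  refine h1.trans (le_of_eq ?_)
  ring

lemma tail_pos' (x : ℝ) : 0 < tail x := by unfold tail; positivity

lemma tail_integrable : IntegrableOn tail (Ioi 0) := by
  refine Integrable.mono' poly_integrable.1 ?_ ?_
  · apply Continuous.aestronglyMeasurable
    unfold tail; fun_prop
  · refine ae_of_all _ fun x => ?_
    rw [Real.norm_eq_abs, abs_of_pos (tail_pos' x)]
    exact tail_le x

lemma mean_le : ∫ x, x ∂law ≤ 0.92 := by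
  rw [mean_eq, ← poly_integrable.2]
  exact setIntegral_mono_on tail_integrable poly_integrable.1 measurableSet_Ioi
    (fun x _ => tail_le x)

lemma mean_pos : 0 < ∫ x, x ∂law := by
  have h1 := med_le_two_mean law_isLaw integrable_id_law
  have h2 := med_law_gt
  linarith

/-- the mean inequality fails for the example law -/
lemma mean_fails {z : ℝ} (hz : 0 < z) : R law z < 2 * z / ∫ x, x ∂law := by
  have hm := mean_pos
  have hm2 := mean_le
  rw [lt_div_iff₀ hm]
  have h1 := R_le hz
  have h3 : R law z * (∫ x, x ∂law) ≤ 2.11 * z * ∫ x, x ∂law :=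
    mul_le_mul_of_nonneg_right h1 hm.le
  nlinarith

end Pool.Agent.H4.TailRatio
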